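import Pool.Agent.Lib.MP_3b0e0c_al.Coset
import Pool.Agent.Lib.MP_3b0e0c_al.U.Strong

/-! Two-generator subgroups centre-by-metabelian: the coset trick for the centralizer of a real
root. -/

namespace Pool.Agent.Lib.MP_3b0e0c_al.W

open Subgroup U
open scoped commutatorElement

variable {G : Type*} [Group G]

/-- All two-generator subgroups are centre-by-metabelian. -/
def CM (G : Type*) [Group G] : Prop := ∀ a b : G,
  ⁅⁅⁅closure ({a, b} : Set G), closure ({a, b} : Set G)⁆,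
    ⁅closure ({a, b} : Set G), closure ({a, b} : Set G)⁆⁆, closure ({a, b} : Set G)⁆ = ⊥

lemma CM.comm (h : CM G) (a b : G) {p q u v w : G} (hp : p ∈ closure ({a, b} : Set G))
    (hq : q ∈ closure ({a, b} : Set G)) (hu : u ∈ closure ({a, b} : Set G))
    (hv : v ∈ closure ({a, b} : Set G)) (hw : w ∈ closure ({a, b} : Set G)) :
    Commute ⁅⁅p, q⁆, ⁅u, v⁆⁆ w := by
  rw [← commutatorElement_eq_one_iff_commute, ← mem_bot, ← h a b]
  exact commutator_mem_commutator (commutator_mem_commutator (commutator_mem_commutator hp hq)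
    (commutator_mem_commutator hu hv)) hw

/-- The metabelian computation with a real element, from four commutation relations. -/
lemma core {g f : G} {k : ℕ} (hg : g ^ (4 * k) = 1) (c1 : Commute ⁅g, f⁆ (f * g⁻¹))
    (c2 : Commute ⁅g, f⁆ (f * g)) (c4 : Commute ⁅g, f⁆ ⁅g * g * g⁻¹, g * f * g⁻¹⁆)
    (c5 : Commute ⁅g * g, f⁆ (f * g⁻¹)) : Commute (g ^ (2 * k)) (f ^ (2 * k)) := by
  rw [← conjugate_commutatorElement] at c4
  have c3 : Commute ⁅g, f⁆ (g * g) := by
    have := c1.inv_right.mul_right c2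
    rwa [show (f * g⁻¹)⁻¹ * (f * g) = g * g by group] at this
  have ey : ⁅g * g, f⁆ = g * ⁅g, f⁆ * g⁻¹ * ⁅g, f⁆ := by
    simp only [commutatorElement_def]; group
  have c6 : Commute ⁅g * g, f⁆ g := by
    rw [ey]
    generalize ⁅g, f⁆ = z at c3 c4
    calc g * z * g⁻¹ * z * g = z * (g * z * g⁻¹) * g := by rw [c4.eq]
      _ = z * (g * g) * (g⁻¹ * z) := by group
      _ = g * (g * z * g⁻¹ * z) := by rw [c3.eq]; group
  have c7 : Commute ⁅g * g, f⁆ f := by
    have := c5.mul_right c6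
    rwa [inv_mul_cancel_right] at this
  generalize hy : ⁅g * g, f⁆ = y at c6 c7
  have e3 : ∀ j : ℕ, g ^ (2 * j) * f = y ^ j * f * g ^ (2 * j) := by
    intro j
    induction j with
    | zero => simp
    | succ j ih =>
      have e4 : g * g * f = y * f * (g * g) := by rw [← hy, commutatorElement_def]; group
      calc g ^ (2 * (j + 1)) * f = g ^ (2 * j) * (g * g * f) := by group
        _ = g ^ (2 * j) * y * f * (g * g) := by rw [e4]; group
        _ = y * (g ^ (2 * j) * f) * (g * g) := by rw [← (c6.pow_right (2 * j)).eq]; group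
        _ = _ := by rw [ih]; group
  have e5 : (y ^ k) ^ 2 = 1 := by
    have := e3 (2 * k)
    rw [show 2 * (2 * k) = 4 * k by ring, hg, one_mul, mul_one, eq_comm, mul_eq_right] at this
    rw [← pow_mul, mul_comm, this]
  have e6 : g ^ (2 * k) * f * (g ^ (2 * k))⁻¹ = y ^ k * f := by rw [e3]; group
  have e7 : g ^ (2 * k) * f ^ (2 * k) * (g ^ (2 * k))⁻¹ = f ^ (2 * k) := by
    rw [← conj_pow, e6, (c7.pow_left k).mul_pow, pow_mul (y ^ k), e5, one_pow, one_mul]
  exact mul_inv_eq_iff_eq_mul.1 e7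

/-- The coset trick: an element central in `⟨g, h c⟩` for all `c` in the centralizer of `g`
centralizes that centralizer. -/
lemma CM.cos (hm : CM G) {g f h y p q : G}
    (hf : ∀ c, Commute c g → f ∈ closure ({g, h * c} : Set G))
    (hy : ∀ c, Commute c g → ∃ u ∈ closure ({g, h * c} : Set G),
      ∃ v ∈ closure ({g, h * c} : Set G), y = ⁅u, v⁆)
    (hp : p ∈ closure ({g, f} : Set G)) (hq : q ∈ closure ({g, f} : Set G)) :
    ⁅⁅p, q⁆, y⁆ ∈ centralizer (insert f {c | Commute c g}) := by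
  have key : ∀ c, Commute c g → ∀ w ∈ closure ({g, h * c} : Set G), Commute ⁅⁅p, q⁆, y⁆ w := by
    intro c hc w hw
    have hle : closure ({g, f} : Set G) ≤ closure {g, h * c} := (closure_le _).2 <| by
      rintro _ (rfl | rfl)
      · exact subset_closure (by simp)
      · exact hf c hc
    obtain ⟨u, hu, v, hv, rfl⟩ := hy c hc
    exact hm.comm _ _ (hle hp) (hle hq) hu hv hw
  rintro c (rfl | hc)
  · exact (key 1 (Commute.one_left g) _ (hf 1 (Commute.one_left g))).eq.symm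
  · have a1 := key 1 (Commute.one_left g) (h * 1) (subset_closure (by simp))
    have a2 := a1.inv_right.mul_right (key c hc (h * c) (subset_closure (by simp)))
    rw [mul_one, inv_mul_cancel_left] at a2
    exact a2.eq.symm

/-- For a real element `g` with `g ^ (4 k) = 1` and `s = g ^ (2 k)`, the commutator of `s` with a
conjugate centralizes the centralizer of `g`. -/
lemma CM.real (hm : CM G) {g a : G} (ha : a * g * a⁻¹ = g⁻¹) {k : ℕ} (hg : g ^ (4 * k) = 1)
    (h : G) {c : G} (hc : Commute c g) :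
    Commute c ⁅g ^ (2 * k), h * g ^ (2 * k) * h⁻¹⁆ := by
  obtain ⟨f, hf⟩ : ∃ f, f = h * g * h⁻¹ := ⟨_, rfl⟩
  rw [← conj_pow, ← hf]
  have m1 : ∀ x y : G, x ∈ closure ({x, y} : Set G) := fun x y => subset_closure (by simp)
  have m2 : ∀ x y : G, y ∈ closure ({x, y} : Set G) := fun x y => subset_closure (by simp)
  have e1 : ∀ c, Commute c g → h * c * g * (h * c)⁻¹ = f := fun c hc => by
    rw [hf, mul_assoc h, hc.eq]; group
  have e2 : ∀ c, Commute c g → h * a * c * g⁻¹ * (h * a * c)⁻¹ = f := fun c hc => by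
    rw [hf, mul_assoc (h * a), hc.inv_right.eq,
      show h * a * (g⁻¹ * c) * (h * a * c)⁻¹ = h * (a * g * a⁻¹)⁻¹ * h⁻¹ by group, ha, inv_inv]
  have f1 : ∀ c, Commute c g → f ∈ closure ({g, h * c} : Set G) := fun c hc =>
    e1 c hc ▸ mul_mem (mul_mem (m2 _ _) (m1 _ _)) (inv_mem (m2 _ _))
  have f2 : ∀ c, Commute c g → f ∈ closure ({g, h * a * c} : Set G) := fun c hc =>
    e2 c hc ▸ mul_mem (mul_mem (m2 _ _) (inv_mem (m1 _ _))) (inv_mem (m2 _ _))
  have y1 : ∀ c, Commute c g → ∃ u ∈ closure ({g, h * c} : Set G),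
      ∃ v ∈ closure ({g, h * c} : Set G), f * g⁻¹ = ⁅u, v⁆ := fun c hc =>
    ⟨_, m2 _ _, _, m1 _ _, by rw [commutatorElement_def, e1 c hc]⟩
  have y2 : ∀ c, Commute c g → ∃ u ∈ closure ({g, h * a * c} : Set G),
      ∃ v ∈ closure ({g, h * a * c} : Set G), f * g = ⁅u, v⁆ := fun c hc =>
    ⟨_, m2 _ _, _, inv_mem (m1 _ _), by rw [commutatorElement_def, e2 c hc, inv_inv]⟩
  have y3 : ∀ c, Commute c g → ∃ u ∈ closure ({g, h * c} : Set G),
      ∃ v ∈ closure ({g, h * c} : Set G), ⁅g * g * g⁻¹, g * f * g⁻¹⁆ = ⁅u, v⁆ := fun c hc =>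
    ⟨_, mul_mem (mul_mem (m1 _ _) (m1 _ _)) (inv_mem (m1 _ _)), _,
      mul_mem (mul_mem (m1 _ _) (f1 c hc)) (inv_mem (m1 _ _)), rfl⟩
  have c1 := hm.cos f1 y1 (m1 g f) (m2 g f)
  have c2 := hm.cos f2 y2 (m1 g f) (m2 g f)
  have c4 := hm.cos f1 y3 (m1 g f) (m2 g f)
  have c5 := hm.cos f1 y1 (mul_mem (m1 g f) (m1 g f)) (m2 g f)
  generalize hZ : centralizer (insert f {c | Commute c g}) = Z at c1 c2 c4 c5
  have hS : insert f {c | Commute c g} ⊆ centralizer (Z : Set G) := fun x hx z hz =>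
    ((hZ ▸ hz : z ∈ centralizer (insert f {c | Commute c g})) x hx).symm
  let g' : centralizer (Z : Set G) := ⟨g, hS (Or.inr (Commute.refl g))⟩
  let f' : centralizer (Z : Set G) := ⟨f, hS (Or.inl rfl)⟩
  have : (Z.subgroupOf (centralizer (Z : Set G))).Normal := ⟨fun n hn m => by
    have : m * n * m⁻¹ = n := Subtype.ext (by
      rw [coe_mul, coe_mul, coe_inv, ← m.2 n hn, mul_inv_cancel_right])
    rwa [this]⟩
  let π := QuotientGroup.mk' (Z.subgroupOf (centralizer (Z : Set G)))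
  have tr : ∀ x y : centralizer (Z : Set G), Commute (π x) (π y) ↔ ⁅(x : G), (y : G)⁆ ∈ Z := by
    intro x y
    rw [← commutatorElement_eq_one_iff_commute, ← map_commutatorElement]
    exact QuotientGroup.eq_one_iff _
  have := core (g := π g') (f := π f') (k := k)
    (by rw [← map_pow, show g' ^ (4 * k) = 1 from Subtype.ext hg, map_one])
    (by rw [← map_inv, ← map_mul, ← map_commutatorElement]; exact (tr _ _).2 c1)
    (by rw [← map_mul, ← map_commutatorElement]; exact (tr _ _).2 c2)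
    (by simp only [← map_inv, ← map_mul, ← map_commutatorElement]; exact (tr _ _).2 c4)
    (by simp only [← map_inv, ← map_mul, ← map_commutatorElement]; exact (tr _ _).2 c5)
  rw [← map_pow, ← map_pow, tr] at this
  exact (hS (Or.inr hc) _ this).symm

/-- If the commutators of an involution with its conjugates commute with it and with each other,
its normal closure is locally finite. -/
lemma LF_pair {s : G} (s2 : s * s = 1) (h1 : ∀ g : G, Commute s ⁅s, g * s * g⁻¹⁆)
    (h2 : ∀ g k : G, Commute ⁅s, g * s * g⁻¹⁆ ⁅s, k * s * k⁻¹⁆) : LF (normalClosure {s}) := by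
  let D : Set G := {v | v = 1 ∨ ∃ g, v = g * s * g⁻¹}
  have sq : ∀ v ∈ D, v * v = 1 := by
    rintro _ (rfl | ⟨g, rfl⟩)
    · simp
    · rw [conj_mul, s2]; simp
  have i1 : ∀ v ∈ D, v⁻¹ = v := fun v hv => inv_eq_of_mul_eq_one_right (sq v hv)
  have cj : ∀ v ∈ D, ∀ g : G, g * v * g⁻¹ ∈ D := by
    rintro _ (rfl | ⟨k, rfl⟩) g
    · exact Or.inl (by simp)
    · exact Or.inr ⟨g * k, by group⟩
  have a1 : ∀ v ∈ D, Commute s ⁅s, v⁆ := by
    rintro _ (rfl | ⟨g, rfl⟩)
    · simp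
    · exact h1 g
  have a2 : ∀ v ∈ D, ∀ w ∈ D, Commute ⁅s, v⁆ ⁅s, w⁆ := by
    rintro _ (rfl | ⟨g, rfl⟩) _ (rfl | ⟨k, rfl⟩)
    · simp
    · simp
    · simp
    · exact h2 g k
  have a3 : ∀ v ∈ D, v * s * v = ⁅s, v⁆⁻¹ * s := fun v hv => by
    rw [commutatorElement_def, show (s * v * s⁻¹ * v⁻¹)⁻¹ * s = v * s * v⁻¹ by group, i1 v hv]
  have a6 : ∀ b ∈ D, ∀ c ∈ D, Commute (b * s * b) (c * s * c) := by
    intro b hb c hc
    rw [a3 b hb, a3 c hc]
    exact ((a2 b hb c hc).inv_inv.mul_right (a1 b hb).symm.inv_left).mul_left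
      ((a1 c hc).inv_right.mul_right (Commute.refl s))
  have hD : SC D := by
    refine ⟨Or.inl rfl, sq, fun u hu v hv => by simpa only [i1 v hv] using cj u hu v, ?_⟩
    rintro _ (rfl | ⟨g, rfl⟩) b hb c hc
    · simp [sq b hb]
    · have := (a6 _ (cj b hb g⁻¹) _ (cj c hc g⁻¹)).conj g
      rwa [show ∀ b : G, g * (g⁻¹ * b * g⁻¹⁻¹ * s * (g⁻¹ * b * g⁻¹⁻¹)) * g⁻¹ =
        b * (g * s * g⁻¹) * b from fun b => by group,
        show ∀ b : G, g * (g⁻¹ * b * g⁻¹⁻¹ * s * (g⁻¹ * b * g⁻¹⁻¹)) * g⁻¹ =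
        b * (g * s * g⁻¹) * b from fun b => by group] at this
  refine hD.lf.mono (closure_mono fun z hz => ?_)
  obtain ⟨u, h1, hz⟩ := Group.mem_conjugatesOfSet_iff.1 hz
  rw [Set.mem_singleton_iff.1 h1] at hz
  obtain ⟨g, rfl⟩ := isConj_iff.1 hz
  exact Or.inr ⟨g, rfl⟩

theorem LF_of_CM (h2 : IsPGroup 2 G) (hm : CM G) : LF (⊤ : Subgroup G) := by
  have hq := h2.to_quotient (rad G)
  have hm' : CM (G ⧸ rad G) := by
    intro a b
    obtain ⟨a, rfl⟩ := QuotientGroup.mk'_surjective _ a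
    obtain ⟨b, rfl⟩ := QuotientGroup.mk'_surjective _ b
    have := congrArg (Subgroup.map (QuotientGroup.mk' (rad G))) (hm a b)
    rwa [map_commutator, map_commutator, map_commutator, MonoidHom.map_closure, Set.image_pair,
      Subgroup.map_bot] at this
  have triv : ∀ z : G ⧸ rad G, (∀ g, Commute z (g * z * g⁻¹)) → z = 1 := fun z hz =>
    quot_triv (LF_normalClosure (tors hq) hz) (subset_normalClosure rfl)
  have real : ∀ g a : G ⧸ rad G, a * g * a⁻¹ = g⁻¹ → ∀ k, g ^ (4 * k) = 1 → g ^ (2 * k) = 1 :=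
    fun g a ha k hg => quot_triv (LF_pair (by rw [← pow_add, ← hg]; congr 1; ring)
      (fun h => hm'.real ha hg h ((Commute.refl g).pow_left _))
      fun h h' => hm'.real ha hg h' (hm'.real ha hg h (Commute.refl g)).symm)
      (subset_normalClosure rfl)
  have inv : ∀ a : G ⧸ rad G, a ^ 2 = 1 → a = 1 := by
    intro a ha
    refine triv a fun h => ?_
    obtain ⟨b, hb⟩ : ∃ b, b = h * a * h⁻¹ := ⟨_, rfl⟩
    have a1 : a⁻¹ = a := inv_eq_of_mul_eq_one_right (by rw [← ha, pow_two])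
    have b1 : b⁻¹ = b := by rw [hb, mul_inv_rev, mul_inv_rev, inv_inv, a1, mul_assoc]
    obtain ⟨k, hk⟩ := hq (a * b)
    have := descend (c := 2) (fun j e => real _ a (by
      rw [mul_inv_rev, b1, ← mul_assoc, ← pow_two, ha, one_mul]) j
      (by rw [← e]; congr 1; ring)) hk
    rw [← hb, ← commutatorElement_eq_one_iff_commute, commutatorElement_def, a1, b1, ← this,
      pow_two, mul_assoc]
  have all : ∀ u : G ⧸ rad G, u = 1 := fun u => by
    obtain ⟨k, hk⟩ := hq u
    simpa using descend (c := 1) (fun j e => inv _ (by rw [← pow_mul, mul_comm, e])) hk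
  exact LF_rad.mono fun y _ => (QuotientGroup.eq_one_iff y).1 (all _)

end Pool.Agent.Lib.MP_3b0e0c_al.W
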